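import Pool.Agent.H121.FL.Iface

set_option autoImplicit false

open scoped BigOperators InnerProductSpace Topology ENNReal
open Filter MeasureTheory

namespace Pool.Agent.H120.FL

open Pool.Agent.H121.FL

/-! ### elementary facts on the folding -/

section fold

variable {m : ℕ}

lemma lft_mir (hm : 1 ≤ m) (x : ℤ) : (lft m x ∧ ¬ lft m (mir m x) ∧
    (mir m x) / (2 * m : ℤ) = x / (2 * m : ℤ) - 1 ∧
    (mir m x) % (2 * m : ℤ) = 2 * m - 1 - x % (2 * m : ℤ)) ∨
    (¬ lft m x ∧ lft m (mir m x) ∧ (mir m x) / (2 * m : ℤ) = x / (2 * m : ℤ) + 1 ∧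
    (mir m x) % (2 * m : ℤ) = 2 * m - 1 - x % (2 * m : ℤ)) := by
  have hN : (0 : ℤ) < 2 * m := by omega
  have h0 := Int.emod_nonneg x hN.ne'
  have h1 := Int.emod_lt_of_pos x hN
  have h2 := Int.emod_add_mul_ediv x (2 * m : ℤ)
  have key : ∀ q r y : ℤ, 0 ≤ r → r < 2 * m → y = 2 * m * q + r →
      y / (2 * m : ℤ) = q ∧ y % (2 * m : ℤ) = r := by
    intro q r y hr0 hr1 hy
    have := (Int.ediv_emod_unique (a := y) (b := 2 * m) (r := r) (q := q) hN).2
      ⟨by rw [hy]; ring, hr0, hr1⟩
    exact this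
  by_cases hl : lft m x
  · left
    have e : mir m x = 2 * m * (x / (2 * m : ℤ) - 1) + (2 * m - 1 - x % (2 * m : ℤ)) := by
      unfold mir
      rw [if_pos hl]
      linear_combination h2
    obtain ⟨k1, k2⟩ := key _ _ _ (by omega) (by omega) e
    refine ⟨hl, ?_, k1, k2⟩
    unfold lft at hl ⊢
    rw [k2]
    omega
  · right
    have e : mir m x = 2 * m * (x / (2 * m : ℤ) + 1) + (2 * m - 1 - x % (2 * m : ℤ)) := by
      unfold mir
      rw [if_neg hl]
      linear_combination h2
    obtain ⟨k1, k2⟩ := key _ _ _ (by omega) (by omega) e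
    refine ⟨hl, ?_, k1, k2⟩
    unfold lft at hl ⊢
    rw [k2]
    omega

lemma rr_mir (hm : 1 ≤ m) (x : ℤ) : rr m (mir m x) = rr m x := by
  rcases lft_mir hm x with ⟨h1, h2, _, h4⟩ | ⟨h1, h2, _, h4⟩
  · unfold rr
    rw [if_neg h2, if_pos h1, h4]
    ring
  · unfold rr
    rw [if_pos h2, if_neg h1, h4]

lemma cc_mir (hm : 1 ≤ m) (x : ℤ) : cc m (mir m x) = cc m x := by
  unfold cc
  rw [rr_mir hm]

lemma sc_mir (hm : 1 ≤ m) (x : ℤ) : sc m (mir m x) = - sc m x := by
  unfold sc
  rcases lft_mir hm x with ⟨h1, h2, _, _⟩ | ⟨h1, h2, _, _⟩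
  · rw [if_neg h2, if_pos h1, rr_mir hm]
  · rw [if_pos h2, if_neg h1, rr_mir hm, neg_neg]

lemma cs_sq (x : ℤ) : cc m x ^ 2 + sc m x ^ 2 = 1 := by
  unfold cc sc
  split_ifs
  · exact Real.cos_sq_add_sin_sq _
  · rw [neg_sq]
    exact Real.cos_sq_add_sin_sq _

lemma cc_le (x : ℤ) : |cc m x| ≤ 1 := Real.abs_cos_le_one _

lemma sc_le (x : ℤ) : |sc m x| ≤ 1 := by
  unfold sc
  split_ifs
  · exact Real.abs_sin_le_one _
  · rw [abs_neg]
    exact Real.abs_sin_le_one _

lemma emod_per (x : ℤ) : (x + 2 * m) % (2 * m : ℤ) = x % (2 * m : ℤ) := by simp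

lemma ediv_per (hm : 1 ≤ m) (x : ℤ) : (x + 2 * m) / (2 * m : ℤ) = x / (2 * m : ℤ) + 1 := by
  have hN : (2 * m : ℤ) ≠ 0 := by omega
  rw [Int.add_ediv_of_dvd_right (dvd_refl _), Int.ediv_self hN]

lemma lft_per (x : ℤ) : lft m (x + 2 * m) ↔ lft m x := by
  unfold lft
  rw [emod_per]

lemma rr_per (x : ℤ) : rr m (x + 2 * m) = rr m x := by
  unfold rr
  by_cases hl : lft m x
  · rw [if_pos hl, if_pos ((lft_per x).2 hl), emod_per]
  · rw [if_neg hl, if_neg (fun h => hl ((lft_per x).1 h)), emod_per]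

lemma cc_per (x : ℤ) : cc m (x + 2 * m) = cc m x := by
  unfold cc
  rw [rr_per]

lemma sc_per (x : ℤ) : sc m (x + 2 * m) = sc m x := by
  unfold sc
  by_cases hl : lft m x
  · rw [if_pos hl, if_pos ((lft_per x).2 hl), rr_per]
  · rw [if_neg hl, if_neg (fun h => hl ((lft_per x).1 h)), rr_per]

end fold

/-! ### block diagonal kernels -/

section bd

variable {m : ℕ}

/-- the index in the block -/
def ix (m : ℕ) (hm : 1 ≤ m) (a : ℤ) : Fin (2 * m) :=
  ⟨(a % (2 * m : ℤ)).toNat, by
    have hN : (0 : ℤ) < 2 * m := by omega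
    have h0 := Int.emod_nonneg a hN.ne'
    have h1 := Int.emod_lt_of_pos a hN
    omega⟩

lemma ix_coe (hm : 1 ≤ m) (a : ℤ) : ((ix m hm a : ℕ) : ℤ) = a % (2 * m : ℤ) := by
  have hN : (0 : ℤ) < 2 * m := by omega
  have h0 := Int.emod_nonneg a hN.ne'
  unfold ix
  simp only
  omega

lemma ix_block (hm : 1 ≤ m) (q : ℤ) (r : Fin (2 * m)) :
    (2 * m * q + (r : ℕ) : ℤ) / (2 * m : ℤ) = q ∧ ix m hm (2 * m * q + (r : ℕ)) = r := by
  have hN : (0 : ℤ) < 2 * m := by omega
  have hr : ((r : ℕ) : ℤ) < 2 * m := by have := r.2; omega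
  have h := (Int.ediv_emod_unique (a := (2 * m * q + (r : ℕ) : ℤ)) (b := 2 * m)
    (r := (r : ℕ)) (q := q) hN).2 ⟨by ring, by omega, hr⟩
  refine ⟨h.1, ?_⟩
  apply Fin.ext
  have h1 := ix_coe hm (2 * m * q + (r : ℕ) : ℤ)
  rw [h.2] at h1
  exact_mod_cast h1

lemma eq_of_block (hm : 1 ≤ m) {a b : ℤ} (h1 : a / (2 * m : ℤ) = b / (2 * m : ℤ))
    (h2 : ix m hm a = ix m hm b) : a = b := by
  have h3 := ix_coe hm a
  have h4 := ix_coe hm b
  rw [h2, h4] at h3
  rw [← Int.emod_add_mul_ediv a (2 * m : ℤ), ← Int.emod_add_mul_ediv b (2 * m : ℤ), h1, h3]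

/-- the block diagonal kernel -/
def BD (m : ℕ) (hm : 1 ≤ m) (κ : Fin (2 * m) → Fin (2 * m) → ℝ) (a x : ℤ) : ℝ :=
  if a / (2 * m : ℤ) = x / (2 * m : ℤ) then κ (ix m hm a) (ix m hm x) else 0

lemma BD_sum (hm : 1 ≤ m) (κ κ' : Fin (2 * m) → Fin (2 * m) → ℝ) (a b : ℤ) :
    HasSum (fun x => BD m hm κ a x * BD m hm κ' b x)
      (if a / (2 * m : ℤ) = b / (2 * m : ℤ) then ∑ r, κ (ix m hm a) r * κ' (ix m hm b) r else 0) := by
  have hN : (0 : ℤ) < 2 * m := by omega
  set g : Fin (2 * m) → ℤ := fun r => 2 * m * (a / (2 * m : ℤ)) + (r : ℕ) with hg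
  have hinj : Function.Injective g := by
    intro r s h
    have h1 := (ix_block hm (a / (2 * m : ℤ)) r).2
    have h2 := (ix_block hm (a / (2 * m : ℤ)) s).2
    rw [← h1, ← h2]
    exact congrArg _ h
  have hz : ∀ x ∉ Set.range g, BD m hm κ a x * BD m hm κ' b x = 0 := by
    intro x hx
    have h1 : ¬ (a / (2 * m : ℤ) = x / (2 * m : ℤ)) := by
      intro h
      apply hx
      refine ⟨ix m hm x, ?_⟩
      simp only [hg]
      rw [ix_coe, h, add_comm]
      exact Int.emod_add_mul_ediv x (2 * m : ℤ)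
    unfold BD
    rw [if_neg h1, zero_mul]
  rw [← hinj.hasSum_iff hz]
  have h := hasSum_fintype ((fun x => BD m hm κ a x * BD m hm κ' b x) ∘ g)
  have e : ∑ r, ((fun x => BD m hm κ a x * BD m hm κ' b x) ∘ g) r =
      if a / (2 * m : ℤ) = b / (2 * m : ℤ) then
        ∑ r, κ (ix m hm a) r * κ' (ix m hm b) r else 0 := by
    have e1 : ∀ r, BD m hm κ a (g r) = κ (ix m hm a) r := by
      intro r
      have h1 := ix_block hm (a / (2 * m : ℤ)) r
      unfold BD
      rw [if_pos h1.1.symm, h1.2]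
    have e2 : ∀ r, BD m hm κ' b (g r) =
        if a / (2 * m : ℤ) = b / (2 * m : ℤ) then κ' (ix m hm b) r else 0 := by
      intro r
      have h1 := ix_block hm (a / (2 * m : ℤ)) r
      unfold BD
      simp only [hg]
      rw [h1.1, h1.2]
      by_cases hab : a / (2 * m : ℤ) = b / (2 * m : ℤ)
      · rw [if_pos hab, if_pos hab.symm]
      · rw [if_neg hab, if_neg (fun h => hab h.symm)]
    by_cases hab : a / (2 * m : ℤ) = b / (2 * m : ℤ)
    · rw [if_pos hab]
      refine Finset.sum_congr rfl fun r _ => ?_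
      simp only [Function.comp]
      rw [e1, e2, if_pos hab]
    · rw [if_neg hab]
      refine Finset.sum_eq_zero fun r _ => ?_
      simp only [Function.comp]
      rw [e2, if_neg hab, mul_zero]
  rw [← e]
  exact h

/-- the eigenvectors of a real symmetric matrix -/
lemma eigs (n : ℕ) (B : Fin n → Fin n → ℝ) (hB : ∀ i j, B i j = B j i) :
    ∃ (o : Fin n → Fin n → ℝ) (l : Fin n → ℝ),
      (∀ k k', ∑ r, o k r * o k' r = if k = k' then 1 else 0) ∧
      (∀ r r', ∑ k, o k r * o k r' = if r = r' then 1 else 0) ∧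
      ∀ k r, ∑ s, B r s * o k s = l k * o k r := by
  have hH : (Matrix.of B).IsHermitian := by
    refine Matrix.IsHermitian.ext fun i j => ?_
    simp only [Matrix.of_apply, star_trivial]
    exact hB j i
  set P : Matrix (Fin n) (Fin n) ℝ := (hH.eigenvectorUnitary : Matrix (Fin n) (Fin n) ℝ) with hP
  have hP1 : star P * P = 1 := by
    rw [hP]
    exact Unitary.coe_star_mul_self hH.eigenvectorUnitary
  have hP2 : P * star P = 1 := by
    rw [hP]
    exact Unitary.coe_mul_star_self hH.eigenvectorUnitary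
  refine ⟨fun k r => P r k, hH.eigenvalues, ?_, ?_, ?_⟩
  · intro k k'
    have h := congrFun (congrFun hP1 k) k'
    rw [Matrix.mul_apply, Matrix.one_apply] at h
    rw [← h]
    refine Finset.sum_congr rfl fun r _ => ?_
    rw [Matrix.star_apply, star_trivial]
  · intro r r'
    have h := congrFun (congrFun hP2 r) r'
    rw [Matrix.mul_apply, Matrix.one_apply] at h
    rw [← h]
    refine Finset.sum_congr rfl fun k _ => ?_
    rw [Matrix.star_apply, star_trivial]
  · intro k r
    have h := congrFun (hH.mulVec_eigenvectorBasis k) r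
    rw [Matrix.mulVec, dotProduct] at h
    simp only [Matrix.of_apply, Pi.smul_apply, smul_eq_mul] at h
    have e : ∀ s, P s k = hH.eigenvectorBasis k s := fun s => by
      rw [hP, Matrix.IsHermitian.eigenvectorUnitary_apply]
    simp only [e]
    exact h

end bd

/-! ### the rotation -/

section rot

variable {m : ℕ}

/-- the rotation of a function -/
noncomputable def rot (m : ℕ) (f : ℤ → ℝ) (x : ℤ) : ℝ := cc m x * f x - sc m x * f (mir m x)

/-- the mirror as an equivalence -/
noncomputable def mirE (m : ℕ) (hi : ∀ x, mir m (mir m x) = x) : ℤ ≃ ℤ :=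
  ⟨mir m, mir m, hi, hi⟩

lemma rot_sum (hm : 1 ≤ m) (hi : ∀ x, mir m (mir m x) = x) (f g : ℤ → ℝ)
    (hf : (Function.support f).Finite) (s : ℝ) (h : HasSum (fun x => f x * g x) s) :
    HasSum (fun x => rot m f x * rot m g x) s := by
  have hfin : ∀ k : ℤ → ℝ, Summable fun x => f x * k x := by
    intro k
    refine summable_of_hasFiniteSupport (hf.subset ?_)
    intro x hx
    rw [Function.mem_support] at hx ⊢
    exact left_ne_zero_of_mul hx
  have h1 := (hfin fun x => g x * cc m x ^ 2).hasSum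
  have h2 := (hfin fun x => g x * sc m x ^ 2).hasSum
  have h3 := (hfin fun x => g (mir m x) * (cc m x * sc m x)).hasSum
  have h2' := ((mirE m hi).hasSum_iff).2 h2
  have h3' := ((mirE m hi).hasSum_iff).2 h3
  have h4 := ((h1.add h2').sub h3).add h3'
  have e : (∑' x, f x * (g x * cc m x ^ 2)) + (∑' x, f x * (g x * sc m x ^ 2)) = s := by
    rw [← (hfin fun x => g x * cc m x ^ 2).tsum_add (hfin fun x => g x * sc m x ^ 2), ← h.tsum_eq]
    refine tsum_congr fun x => ?_
    have := cs_sq (m := m) x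
    linear_combination (f x * g x) * this
  have e' : s = (∑' x, f x * (g x * cc m x ^ 2)) + (∑' x, f x * (g x * sc m x ^ 2)) -
      (∑' x, f x * (g (mir m x) * (cc m x * sc m x))) +
      (∑' x, f x * (g (mir m x) * (cc m x * sc m x))) := by rw [e]; ring
  rw [e']
  have ef : (fun x => rot m f x * rot m g x) = fun x => f x * (g x * cc m x ^ 2) +
      ((fun x => f x * (g x * sc m x ^ 2)) ∘ (mirE m hi)) x -
      f x * (g (mir m x) * (cc m x * sc m x)) +
      ((fun x => f x * (g (mir m x) * (cc m x * sc m x))) ∘ (mirE m hi)) x := by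
    funext x
    have e1 : (mirE m hi) x = mir m x := rfl
    simp only [Function.comp, e1, rot, hi, cc_mir hm, sc_mir hm]
    ring
  rw [ef]
  exact h4

end rot

/-! ### the flat band structure -/

lemma k1_symm (x y : ℤ) : k1 x y = k1 y x := by
  unfold k1
  have h1 : (y = x + 1) ↔ (x = y - 1) := by omega
  have h2 : (y = x - 1) ↔ (x = y + 1) := by omega
  simp only [h1, h2]
  exact add_comm _ _

lemma k1_per (x y v : ℤ) : k1 (x + v) (y + v) = k1 x y := by
  unfold k1
  have h1 : (y + v = x + v + 1) ↔ (y = x + 1) := by omega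
  have h2 : (y + v = x + v - 1) ↔ (y = x - 1) := by omega
  simp only [h1, h2]

lemma k1_rg (x y : ℤ) (h : k1 x y ≠ 0) : |x - y| ≤ 1 := by
  by_contra hc
  apply h
  unfold k1
  rw [if_neg, if_neg, add_zero]
  · intro h1; apply hc; rw [h1]; simp
  · intro h1; apply hc; rw [h1]; simp

section blk

variable {m : ℕ}

lemma blk_symm (x y : ℤ) : blk m x y = blk m y x := by
  by_cases hxy : x = y
  · rw [hxy]
  · unfold blk
    have h1 : ¬ (x = y ∧ x % (2 * m : ℤ) = 0) := fun h => hxy h.1
    have h2 : ¬ (x = y ∧ x % (2 * m : ℤ) = 2 * m - 1) := fun h => hxy h.1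
    have h3 : ¬ (y = x ∧ y % (2 * m : ℤ) = 0) := fun h => hxy h.1.symm
    have h4 : ¬ (y = x ∧ y % (2 * m : ℤ) = 2 * m - 1) := fun h => hxy h.1.symm
    rw [if_neg h1, if_neg h2, if_neg h3, if_neg h4, k1_symm]
    by_cases h5 : x / (2 * m : ℤ) = y / (2 * m : ℤ)
    · rw [if_pos h5, if_pos h5.symm]
    · rw [if_neg h5, if_neg (fun h => h5 h.symm)]

lemma blk_ne (x y : ℤ) (h : ¬ (x / (2 * m : ℤ) = y / (2 * m : ℤ))) : blk m x y = 0 := by
  have hxy : ¬ (x = y) := fun h' => h (by rw [h'])
  unfold blk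
  have h1 : ¬ (x = y ∧ x % (2 * m : ℤ) = 0) := fun h => hxy h.1
  have h2 : ¬ (x = y ∧ x % (2 * m : ℤ) = 2 * m - 1) := fun h => hxy h.1
  rw [if_neg h, if_neg h1, if_neg h2]
  ring

lemma blk_per (hm : 1 ≤ m) (x y : ℤ) (q : ℤ) :
    blk m (x + 2 * m * q) (y + 2 * m * q) = blk m x y := by
  have hN : (2 * m : ℤ) ≠ 0 := by omega
  have e1 : ∀ z : ℤ, (z + 2 * m * q) / (2 * m : ℤ) = z / (2 * m : ℤ) + q := fun z =>
    Int.add_mul_ediv_left z q hN
  have e2 : ∀ z : ℤ, (z + 2 * m * q) % (2 * m : ℤ) = z % (2 * m : ℤ) := fun z =>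
    Int.add_mul_emod_self_left z (2 * m : ℤ) q
  unfold blk
  simp only [e1, e2, k1_per, add_left_inj]

lemma blk_BD (hm : 1 ≤ m) (x y : ℤ) :
    blk m x y = BD m hm (fun r s => blk m (r : ℕ) (s : ℕ)) x y := by
  unfold BD
  by_cases h : x / (2 * m : ℤ) = y / (2 * m : ℤ)
  · rw [if_pos h]
    simp only [ix_coe]
    rw [← blk_per hm (x % (2 * m : ℤ)) (y % (2 * m : ℤ)) (x / (2 * m : ℤ)),
      Int.emod_add_mul_ediv, h, Int.emod_add_mul_ediv]
  · rw [if_neg h]
    exact blk_ne x y h

lemma blk_rg (x y : ℤ) (h : blk m x y ≠ 0) : |x - y| ≤ 1 := by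
  by_contra hc
  have hxy : ¬ (x = y) := by
    intro h'
    apply hc
    rw [h']
    simp
  have hk : k1 x y = 0 := by
    by_contra h'
    exact hc (k1_rg x y h')
  apply h
  unfold blk
  have h1 : ¬ (x = y ∧ x % (2 * m : ℤ) = 0) := fun h => hxy h.1
  have h2 : ¬ (x = y ∧ x % (2 * m : ℤ) = 2 * m - 1) := fun h => hxy h.1
  rw [if_neg h1, if_neg h2, hk]
  simp

end blk

section fin

variable {m : ℕ}

lemma ix_per (hm : 1 ≤ m) (a : ℤ) : ix m hm (a + 2 * m) = ix m hm a := by
  apply Fin.ext
  have h1 := ix_coe hm (a + 2 * m)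
  rw [emod_per, ← ix_coe hm a] at h1
  exact_mod_cast h1

lemma BD_per (hm : 1 ≤ m) (κ : Fin (2 * m) → Fin (2 * m) → ℝ) (a x : ℤ) :
    BD m hm κ (a + 2 * m) (x + 2 * m) = BD m hm κ a x := by
  unfold BD
  rw [ediv_per hm, ediv_per hm, ix_per, ix_per]
  simp only [add_left_inj]

lemma BD_swap (hm : 1 ≤ m) (κ : Fin (2 * m) → Fin (2 * m) → ℝ) (a x : ℤ) :
    BD m hm κ a x = BD m hm (fun r s => κ s r) x a := by
  unfold BD
  by_cases h : a / (2 * m : ℤ) = x / (2 * m : ℤ)
  · rw [if_pos h, if_pos h.symm]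
  · rw [if_neg h, if_neg (fun h' => h h'.symm)]

lemma BD_block (hm : 1 ≤ m) (κ : Fin (2 * m) → Fin (2 * m) → ℝ) (a x : ℤ)
    (h : BD m hm κ a x ≠ 0) : a / (2 * m : ℤ) = x / (2 * m : ℤ) := by
  by_contra h'
  apply h
  unfold BD
  rw [if_neg h']

lemma block_close (hm : 1 ≤ m) (a x : ℤ) (h : a / (2 * m : ℤ) = x / (2 * m : ℤ)) :
    |a - x| ≤ 2 * m := by
  have hN : (0 : ℤ) < 2 * m := by omega
  have h1 := Int.emod_nonneg a hN.ne'
  have h2 := Int.emod_lt_of_pos a hN
  have h3 := Int.emod_nonneg x hN.ne'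
  have h4 := Int.emod_lt_of_pos x hN
  have h5 := Int.emod_add_mul_ediv a (2 * m : ℤ)
  have h6 := Int.emod_add_mul_ediv x (2 * m : ℤ)
  rw [h] at h5
  rw [abs_le]
  constructor <;> linarith

lemma BD_fin (hm : 1 ≤ m) (κ : Fin (2 * m) → Fin (2 * m) → ℝ) (a : ℤ) :
    (Function.support (BD m hm κ a)).Finite := by
  refine (Set.finite_Icc (a - 2 * m) (a + 2 * m)).subset fun x hx => ?_
  have h := abs_le.1 (block_close hm a x (BD_block hm κ a x hx))
  rw [Set.mem_Icc]
  constructor <;> linarith [h.1, h.2]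

lemma blk_fin (x : ℤ) : (Function.support (blk m x)).Finite := by
  refine (Set.finite_Icc (x - 1) (x + 1)).subset fun y hy => ?_
  have h := abs_le.1 (blk_rg x y hy)
  rw [Set.mem_Icc]
  constructor <;> linarith [h.1, h.2]

lemma rot_ne (f : ℤ → ℝ) (x : ℤ) (h : rot m f x ≠ 0) : f x ≠ 0 ∨ f (mir m x) ≠ 0 := by
  by_contra hc
  rw [not_or, not_not, not_not] at hc
  apply h
  unfold rot
  rw [hc.1, hc.2]
  ring

/-- the kernel `t` -/
noncomputable def tt (m : ℕ) (x y : ℤ) : ℝ :=
  cc m x * rot m (blk m x) y - sc m x * rot m (blk m (mir m x)) y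

lemma tt_symm (x y : ℤ) : tt m x y = tt m y x := by
  unfold tt rot
  rw [blk_symm y x, blk_symm y (mir m x), blk_symm (mir m y) x, blk_symm (mir m y) (mir m x)]
  ring

lemma tt_sub (hm : 1 ≤ m) (hi : ∀ x, mir m (mir m x) = x) (x y : ℤ) :
    tt m x y - k1 x y = - (cc m x * cc m y * er m x y - cc m x * sc m y * er m x (mir m y) -
      sc m x * cc m y * er m (mir m x) y + sc m x * sc m y * er m (mir m x) (mir m y)) := by
  have hx := cs_sq (m := m) x
  have hy := cs_sq (m := m) y
  unfold tt rot er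
  simp only [hi, cc_mir hm, sc_mir hm]
  linear_combination k1 x y * (cc m y ^ 2 + sc m y ^ 2) * hx + k1 x y * hy

end fin

theorem one (hf : S_fold) : S_one := by
  intro δ hδ
  obtain ⟨m, hm2, hmd⟩ : ∃ m : ℕ, 2 ≤ m ∧ 4 * (4 * (Real.pi / (4 * (m - 1 : ℝ)))) ≤ δ := by
    obtain ⟨k, hk⟩ := exists_nat_gt (4 * Real.pi / δ + 2)
    have hp : 0 < 4 * Real.pi / δ := by positivity
    have hk2 : (2 : ℝ) < k := by linarith
    refine ⟨k, by exact_mod_cast hk2.le, ?_⟩
    have h1 : 0 < (k : ℝ) - 1 := by linarith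
    have h2 : 4 * (4 * (Real.pi / (4 * (k - 1 : ℝ)))) = 4 * Real.pi / (k - 1 : ℝ) := by
      field_simp
    rw [h2, div_le_iff₀ h1]
    have h3 : 4 * Real.pi / δ ≤ (k : ℝ) - 1 := by linarith
    rw [div_le_iff₀ hδ] at h3
    linarith
  have hm : 1 ≤ m := by omega
  obtain ⟨hi, hmp, hmd', hmx, -, -, -, -, -, her⟩ := hf m hm2
  obtain ⟨o, l, ho1, ho2, ho3⟩ := eigs (2 * m) (fun r s => blk m (r : ℕ) (s : ℕ))
    (fun r s => blk_symm _ _)
  have hN : (0 : ℤ) < 2 * m := by omega
  -- the orthogonality relations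
  have hOO : ∀ a b, HasSum (fun x => BD m hm o a x * BD m hm o b x) (if a = b then 1 else 0) := by
    intro a b
    have h := BD_sum hm o o a b
    have e : (if a / (2 * m : ℤ) = b / (2 * m : ℤ) then
        ∑ r, o (ix m hm a) r * o (ix m hm b) r else 0) = (if a = b then (1 : ℝ) else 0) := by
      rw [ho1]
      by_cases hab : a = b
      · rw [hab, if_pos rfl, if_pos rfl, if_pos rfl]
      · rw [if_neg hab]
        by_cases h1 : a / (2 * m : ℤ) = b / (2 * m : ℤ)
        · rw [if_pos h1, if_neg fun h2 => hab (eq_of_block hm h1 h2)]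
        · rw [if_neg h1]
    rw [e] at h
    exact h
  have hOO' : ∀ x y, HasSum (fun a => BD m hm o a x * BD m hm o a y) (if x = y then 1 else 0) := by
    intro x y
    have h := BD_sum hm (fun r s => o s r) (fun r s => o s r) x y
    have e : (if x / (2 * m : ℤ) = y / (2 * m : ℤ) then
        ∑ r, o r (ix m hm x) * o r (ix m hm y) else 0) = (if x = y then (1 : ℝ) else 0) := by
      rw [ho2]
      by_cases hab : x = y
      · rw [hab, if_pos rfl, if_pos rfl, if_pos rfl]
      · rw [if_neg hab]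
        by_cases h1 : x / (2 * m : ℤ) = y / (2 * m : ℤ)
        · rw [if_pos h1, if_neg fun h2 => hab (eq_of_block hm h1 h2)]
        · rw [if_neg h1]
    rw [e] at h
    simp only [← BD_swap hm o] at h
    exact h
  have hbO : ∀ x a, HasSum (fun y => blk m x y * BD m hm o a y)
      (l (ix m hm a) * BD m hm o a x) := by
    intro x a
    have h := BD_sum hm (fun r s => blk m (r : ℕ) (s : ℕ)) o x a
    have e : (if x / (2 * m : ℤ) = a / (2 * m : ℤ) then
        ∑ r : Fin (2 * m), blk m ((ix m hm x : ℕ) : ℤ) ((r : ℕ) : ℤ) * o (ix m hm a) r else 0) =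
        l (ix m hm a) * BD m hm o a x := by
      rw [ho3]
      unfold BD
      by_cases h1 : x / (2 * m : ℤ) = a / (2 * m : ℤ)
      · rw [if_pos h1, if_pos h1.symm]
      · rw [if_neg h1, if_neg fun h2 => h1 h2.symm, mul_zero]
    rw [e] at h
    simp only [← blk_BD hm] at h
    exact h
  have hcast : ((2 * m : ℕ) : ℤ) = 2 * (m : ℤ) := by push_cast; ring
  refine ⟨2 * m, tt m, fun a x => rot m (BD m hm o a) x, fun a => l (ix m hm a), ?_, ?_⟩
  · refine ⟨by omega, tt_symm, ?_, ?_, ?_, ?_, ?_, ?_, ?_, ?_, ?_⟩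
    · intro x y
      rw [hcast]
      have hb : ∀ x y, blk m (x + 2 * m) (y + 2 * m) = blk m x y := by
        intro x y
        have := blk_per hm x y 1
        rw [mul_one] at this
        exact this
      unfold tt rot
      simp only [hmp, cc_per, sc_per, hb]
    · intro a x
      rw [hcast]
      unfold rot
      simp only [hmp, cc_per, sc_per, BD_per]
    · intro a
      rw [hcast]
      simp only [ix_per]
    · intro x y h
      rw [hcast]
      have h' : rot m (blk m x) y ≠ 0 ∨ rot m (blk m (mir m x)) y ≠ 0 := by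
        by_contra hc
        rw [not_or, not_not, not_not] at hc
        apply h
        unfold tt
        rw [hc.1, hc.2]
        ring
      have hx := abs_le.1 (hmd' x)
      have hy := abs_le.1 (hmd' y)
      rcases h' with h1 | h1
      · rcases rot_ne _ _ h1 with h2 | h2
        · have h3 := abs_le.1 (blk_rg _ _ h2)
          rw [abs_le]
          constructor <;> linarith [h3.1, h3.2]
        · have h3 := abs_le.1 (blk_rg _ _ h2)
          rw [abs_le]
          constructor <;> linarith [h3.1, h3.2]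
      · rcases rot_ne _ _ h1 with h2 | h2
        · have h3 := abs_le.1 (blk_rg _ _ h2)
          rw [abs_le]
          constructor <;> linarith [h3.1, h3.2]
        · have h3 := abs_le.1 (blk_rg _ _ h2)
          rw [abs_le]
          constructor <;> linarith [h3.1, h3.2]
    · intro a x h
      rw [hcast]
      have hx := abs_le.1 (hmd' x)
      rcases rot_ne _ _ h with h2 | h2
      · have h3 := abs_le.1 (block_close hm a x (BD_block hm o a x h2))
        rw [abs_le]
        constructor <;> linarith [h3.1, h3.2]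
      · have h3 := abs_le.1 (block_close hm a _ (BD_block hm o a _ h2))
        rw [abs_le]
        constructor <;> linarith [h3.1, h3.2]
    · intro a b
      exact rot_sum hm hi _ _ (BD_fin hm o a) _ (hOO a b)
    · intro x y
      have h1 := (hOO' x y).mul_left (cc m x * cc m y)
      have h2 := (hOO' x (mir m y)).mul_left (cc m x * sc m y)
      have h3 := (hOO' (mir m x) y).mul_left (sc m x * cc m y)
      have h4 := (hOO' (mir m x) (mir m y)).mul_left (sc m x * sc m y)
      have h5 := ((h1.sub h2).sub h3).add h4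
      have e1 : (fun a => rot m (BD m hm o a) x * rot m (BD m hm o a) y) = fun a =>
          cc m x * cc m y * (BD m hm o a x * BD m hm o a y) -
          cc m x * sc m y * (BD m hm o a x * BD m hm o a (mir m y)) -
          sc m x * cc m y * (BD m hm o a (mir m x) * BD m hm o a y) +
          sc m x * sc m y * (BD m hm o a (mir m x) * BD m hm o a (mir m y)) := by
        funext a
        unfold rot
        ring
      have e2 : (if x = y then (1 : ℝ) else 0) =
          cc m x * cc m y * (if x = y then 1 else 0) -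
          cc m x * sc m y * (if x = mir m y then 1 else 0) -
          sc m x * cc m y * (if mir m x = y then 1 else 0) +
          sc m x * sc m y * (if mir m x = mir m y then 1 else 0) := by
        by_cases hxy : x = y
        · subst hxy
          rw [if_pos rfl, if_neg (fun h => hmx x h.symm), if_neg (hmx x), if_pos rfl]
          have := cs_sq (m := m) x
          linear_combination -this
        · have h6 : mir m x ≠ mir m y := fun h => hxy (by rw [← hi x, h, hi])
          rw [if_neg hxy, if_neg h6]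
          by_cases h7 : mir m x = y
          · rw [if_pos h7, if_pos (by rw [← h7, hi]), ← h7, cc_mir hm, sc_mir hm]
            ring
          · rw [if_neg h7, if_neg (fun h => h7 (by rw [h, hi]))]
            ring
      rw [e1, e2]
      exact h5
    · intro a x
      have h1 := (rot_sum hm hi _ (BD m hm o a) (blk_fin x) _ (hbO x a)).mul_left (cc m x)
      have h2 := (rot_sum hm hi _ (BD m hm o a) (blk_fin (mir m x)) _
        (hbO (mir m x) a)).mul_left (sc m x)
      have h3 := h1.sub h2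
      have e1 : (fun y => tt m x y * rot m (BD m hm o a) y) = fun y =>
          cc m x * (rot m (blk m x) y * rot m (BD m hm o a) y) -
          sc m x * (rot m (blk m (mir m x)) y * rot m (BD m hm o a) y) := by
        funext y
        unfold tt
        ring
      have e2 : l (ix m hm a) * rot m (BD m hm o a) x =
          cc m x * (l (ix m hm a) * BD m hm o a x) -
          sc m x * (l (ix m hm a) * BD m hm o a (mir m x)) := by
        unfold rot
        ring
      rw [e1, e2]
      exact h3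
    · intro a b hab hdvd x
      by_contra hne
      have ha := rot_ne _ _ (left_ne_zero_of_mul hne)
      have hb := rot_ne _ _ (right_ne_zero_of_mul hne)
      have ha' : a / (2 * m : ℤ) = x / (2 * m : ℤ) ∨ a / (2 * m : ℤ) = mir m x / (2 * m : ℤ) :=
        ha.imp (BD_block hm o a x) (BD_block hm o a _)
      have hb' : b / (2 * m : ℤ) = x / (2 * m : ℤ) ∨ b / (2 * m : ℤ) = mir m x / (2 * m : ℤ) :=
        hb.imp (BD_block hm o b x) (BD_block hm o b _)
      rw [hcast] at hdvd
      obtain ⟨c, hc⟩ := hdvd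
      have hac : a = b + 2 * m * (2 * c) := by linarith
      have hq : a / (2 * m : ℤ) = b / (2 * m : ℤ) + 2 * c := by
        rw [hac]
        exact Int.add_mul_ediv_left b (2 * c) hN.ne'
      have hc0 : c ≠ 0 := by
        intro h
        apply hab
        rw [hac, h]
        ring
      have hmm : mir m x / (2 * m : ℤ) = x / (2 * m : ℤ) - 1 ∨
          mir m x / (2 * m : ℤ) = x / (2 * m : ℤ) + 1 :=
        (lft_mir hm x).imp (fun h => h.2.2.1) (fun h => h.2.2.1)
      omega
  · intro x
    have hb : ∀ y, |tt m x y - k1 x y| ≤ |er m x y| + |er m x (mir m y)| + |er m (mir m x) y| +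
        |er m (mir m x) (mir m y)| := by
      intro y
      rw [tt_sub hm hi, abs_neg]
      have hcx := cc_le (m := m) x
      have hcy := cc_le (m := m) y
      have hsx := sc_le (m := m) x
      have hsy := sc_le (m := m) y
      have hgen : ∀ u v w : ℝ, |u| ≤ 1 → |v| ≤ 1 → |u * v * w| ≤ |w| := by
        intro u v w hu hv
        rw [abs_mul, abs_mul]
        have : |u| * |v| ≤ 1 := mul_le_one₀ hu (abs_nonneg _) hv
        calc |u| * |v| * |w| ≤ 1 * |w| := mul_le_mul_of_nonneg_right this (abs_nonneg _)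
          _ = |w| := one_mul _
      have g1 := hgen _ _ (er m x y) hcx hcy
      have g2 := hgen _ _ (er m x (mir m y)) hcx hsy
      have g3 := hgen _ _ (er m (mir m x) y) hsx hcy
      have g4 := hgen _ _ (er m (mir m x) (mir m y)) hsx hsy
      refine (abs_add_le _ _).trans (add_le_add ?_ g4)
      refine (abs_sub _ _).trans (add_le_add ?_ g3)
      exact (abs_sub _ _).trans (add_le_add g1 g2)
    have s1 := (her x).1
    have s2 := (her (mir m x)).1
    have s1' : Summable fun y => |er m x (mir m y)| := ((mirE m hi).summable_iff).2 s1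
    have s2' : Summable fun y => |er m (mir m x) (mir m y)| := ((mirE m hi).summable_iff).2 s2
    have t1' : ∑' y, |er m x (mir m y)| = ∑' y, |er m x y| :=
      (mirE m hi).tsum_eq (fun y => |er m x y|)
    have t2' : ∑' y, |er m (mir m x) (mir m y)| = ∑' y, |er m (mir m x) y| :=
      (mirE m hi).tsum_eq (fun y => |er m (mir m x) y|)
    have sall := ((s1.add s1').add s2).add s2'
    have hsum : Summable fun y => |tt m x y - k1 x y| :=
      Summable.of_nonneg_of_le (fun y => abs_nonneg _) hb sall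
    refine ⟨hsum, ?_⟩
    calc ∑' y, |tt m x y - k1 x y| ≤ ∑' y, (|er m x y| + |er m x (mir m y)| +
          |er m (mir m x) y| + |er m (mir m x) (mir m y)|) := hsum.tsum_le_tsum hb sall
      _ = ∑' y, |er m x y| + ∑' y, |er m x (mir m y)| + ∑' y, |er m (mir m x) y| +
          ∑' y, |er m (mir m x) (mir m y)| := by
        rw [((s1.add s1').add s2).tsum_add s2', (s1.add s1').tsum_add s2, s1.tsum_add s1']
      _ ≤ δ := by
        rw [t1', t2']
        have := (her x).2
        have := (her (mir m x)).2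
        linarith

end Pool.Agent.H120.FL
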